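import Pool.Agent.Helper69.Enayat.Spec
import Pool.Agent.Helper69.Enayat.AR
import Pool.Agent.Helper96.PA.Basic

/-!
# Enayat models: basic properties of the definable ultrapower
-/

set_option autoImplicit false

namespace Pool.Agent.Helper69.Enayat

open FirstOrder FirstOrder.Language Pool.Agent.Helper30.SatB Filter
open Pool.Agent.Helper96.PA (tZero tSucc tAdd tMul tNum num realize_tZero realize_tSucc
  realize_tAdd realize_tMul realize_tNum)

/-! ### arithmetic of `ℕ` as a structure -/

theorem nat_pZero : pZero ℕ = 0 := rfl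
theorem nat_pSucc (a : ℕ) : pSucc a = a + 1 := rfl
theorem nat_pAdd (a b : ℕ) : pAdd a b = a + b := rfl
theorem nat_pMul (a b : ℕ) : pMul a b = a * b := rfl

theorem nat_plt (a b : ℕ) : plt a b ↔ a < b := by
  constructor
  · rintro ⟨z, hz⟩
    rw [nat_pSucc, nat_pAdd] at hz
    omega
  · intro h
    exact ⟨b - a - 1, by rw [nat_pSucc, nat_pAdd]; omega⟩

theorem pNum_eq_num {M : Type} [arithLang.Structure M] : ∀ n : ℕ, pNum M n = num M n
  | 0 => rfl
  | n + 1 => by
    show pSucc (pNum M n) = pSucc (num M n)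
    rw [pNum_eq_num n]

theorem nat_pNum : ∀ n : ℕ, pNum ℕ n = n
  | 0 => rfl
  | n + 1 => by
    show pSucc (pNum ℕ n) = n + 1
    rw [nat_pNum n, nat_pSucc]

/-! ### arithmetical functions -/

theorem arithF_add {f g : List Bool → ℕ} (hf : ArithF f) (hg : ArithF g) :
    ArithF (fun x => f x + g x) :=
  ArithF.comp₂ (g := fun a b : ℕ => a + b) (ArithF.of_primrec Primrec.nat_add) hf hg

theorem arithF_mul {f g : List Bool → ℕ} (hf : ArithF f) (hg : ArithF g) :
    ArithF (fun x => f x * g x) :=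
  ArithF.comp₂ (g := fun a b : ℕ => a * b) (ArithF.of_primrec Primrec.nat_mul) hf hg

theorem arithF_succ {f : List Bool → ℕ} (hf : ArithF f) : ArithF (fun x => f x + 1) :=
  arithF_add hf (ArithF.const 1)

theorem arithF_pred {f : List Bool → ℕ} (hf : ArithF f) : ArithF (fun x => f x - 1) :=
  ArithF.comp (g := fun a : ℕ => a - 1) (ArithF.of_primrec Primrec.pred) hf

/-- constant functions -/
def ArF.c (n : ℕ) : ArF := ⟨fun _ => n, ArithF.const n⟩
def ArF.add (f g : ArF) : ArF := ⟨fun x => f.1 x + g.1 x, arithF_add f.2 g.2⟩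
def ArF.mul (f g : ArF) : ArF := ⟨fun x => f.1 x * g.1 x, arithF_mul f.2 g.2⟩
def ArF.succ (f : ArF) : ArF := ⟨fun x => f.1 x + 1, arithF_succ f.2⟩

section Model

variable {U : Ultrafilter (List Bool)} {M : Type} [arithLang.Structure M] {mk : ArF → M}

/-! module BAS: basic properties -/

theorem IsUP.mk_eq (h : IsUP U M mk) (f g : ArF) :
    mk f = mk g ↔ ∀ᶠ x in (U : Filter (List Bool)), f.1 x = g.1 x := by
  have := h.los (ι := Fin 2) (n := 0)
    (BoundedFormula.equal (Term.var (Sum.inl 0)) (Term.var (Sum.inl 1))) ![f, g] Fin.elim0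
  exact this

theorem IsUP.add_iff (h : IsUP U M mk) (f g k : ArF) :
    pAdd (mk f) (mk g) = mk k ↔ ∀ᶠ x in (U : Filter (List Bool)), f.1 x + g.1 x = k.1 x := by
  have := h.los (ι := Fin 3) (n := 0)
    (BoundedFormula.equal (tAdd (Term.var (Sum.inl 0)) (Term.var (Sum.inl 1)))
      (Term.var (Sum.inl 2))) ![f, g, k] Fin.elim0
  simp only [BoundedFormula.Realize, realize_tAdd] at this
  exact this

theorem IsUP.mul_iff (h : IsUP U M mk) (f g k : ArF) :
    pMul (mk f) (mk g) = mk k ↔ ∀ᶠ x in (U : Filter (List Bool)), f.1 x * g.1 x = k.1 x := by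
  have := h.los (ι := Fin 3) (n := 0)
    (BoundedFormula.equal (tMul (Term.var (Sum.inl 0)) (Term.var (Sum.inl 1)))
      (Term.var (Sum.inl 2))) ![f, g, k] Fin.elim0
  simp only [BoundedFormula.Realize, realize_tMul] at this
  exact this

theorem IsUP.succ_iff (h : IsUP U M mk) (f k : ArF) :
    pSucc (mk f) = mk k ↔ ∀ᶠ x in (U : Filter (List Bool)), f.1 x + 1 = k.1 x := by
  have := h.los (ι := Fin 2) (n := 0)
    (BoundedFormula.equal (tSucc (Term.var (Sum.inl 0)))
      (Term.var (Sum.inl 1))) ![f, k] Fin.elim0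
  simp only [BoundedFormula.Realize, realize_tSucc] at this
  exact this

theorem IsUP.zero_iff (h : IsUP U M mk) (k : ArF) :
    pZero M = mk k ↔ ∀ᶠ x in (U : Filter (List Bool)), 0 = k.1 x := by
  have := h.los (ι := Fin 1) (n := 0)
    (BoundedFormula.equal tZero (Term.var (Sum.inl 0))) ![k] Fin.elim0
  simp only [BoundedFormula.Realize, realize_tZero] at this
  exact this

theorem IsUP.lt_iff (h : IsUP U M mk) (f g : ArF) :
    plt (mk f) (mk g) ↔ ∀ᶠ x in (U : Filter (List Bool)), f.1 x < g.1 x := by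
  have := h.los (ι := Fin 2) (n := 0)
    (BoundedFormula.equal (n := 1) (tAdd (Term.var (Sum.inl 0)) (tSucc (Term.var (Sum.inr 0))))
      (Term.var (Sum.inl 1))).ex ![f, g] Fin.elim0
  simp only [BoundedFormula.realize_ex] at this
  simp only [BoundedFormula.Realize, realize_tAdd, realize_tSucc] at this
  refine Iff.trans ?_ (this.trans ?_)
  · exact Iff.rfl
  · exact eventually_congr (Eventually.of_forall fun x => nat_plt _ _)

theorem IsUP.pNum_eq (h : IsUP U M mk) (n : ℕ) (f : ArF) :
    mk f = pNum M n ↔ ∀ᶠ x in (U : Filter (List Bool)), f.1 x = n := by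
  have := h.los (ι := Fin 1) (n := 0)
    (BoundedFormula.equal (Term.var (Sum.inl 0)) (tNum n)) ![f] Fin.elim0
  simp only [BoundedFormula.Realize, realize_tNum] at this
  rw [pNum_eq_num]
  refine this.trans ?_
  rw [← pNum_eq_num, nat_pNum]
  exact Iff.rfl

theorem IsUP.mk_c (h : IsUP U M mk) (n : ℕ) : mk (ArF.c n) = pNum M n :=
  (h.pNum_eq n _).2 (Eventually.of_forall fun _ => rfl)

theorem IsUP.mk_succ (h : IsUP U M mk) (f : ArF) : pSucc (mk f) = mk f.succ :=
  (h.succ_iff f _).2 (Eventually.of_forall fun _ => rfl)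

theorem IsUP.mk_add (h : IsUP U M mk) (f g : ArF) : pAdd (mk f) (mk g) = mk (f.add g) :=
  (h.add_iff f g _).2 (Eventually.of_forall fun _ => rfl)

theorem IsUP.mk_mul (h : IsUP U M mk) (f g : ArF) : pMul (mk f) (mk g) = mk (f.mul g) :=
  (h.mul_iff f g _).2 (Eventually.of_forall fun _ => rfl)

theorem IsUP.mk_zero (h : IsUP U M mk) : pZero M = mk (ArF.c 0) :=
  (h.zero_iff _).2 (Eventually.of_forall fun _ => rfl)

theorem IsUP.countable (h : IsUP U M mk) : Countable M := by
  have : Countable ArF := countable_arithF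
  exact h.surj.countable

open Classical in
/-- least counterexample -/
noncomputable def leastCex {n : ℕ} (φ : arithLang.BoundedFormula Empty (n + 1)) (g : Fin n → ArF)
    (x : List Bool) : ℕ :=
  if H : ∃ y : ℕ, ¬ φ.Realize default (Fin.snoc (fun i => (g i).1 x) y : Fin (n + 1) → ℕ) then
    Nat.find H else 0

theorem leastCex_spec {n : ℕ} (φ : arithLang.BoundedFormula Empty (n + 1)) (g : Fin n → ArF)
    (x : List Bool)
    (H : ∃ y : ℕ, ¬ φ.Realize default (Fin.snoc (fun i => (g i).1 x) y : Fin (n + 1) → ℕ)) :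
    ¬ φ.Realize default (Fin.snoc (fun i => (g i).1 x) (leastCex φ g x) : Fin (n + 1) → ℕ) ∧
    ∀ z < leastCex φ g x, φ.Realize default (Fin.snoc (fun i => (g i).1 x) z : Fin (n + 1) → ℕ) := by
  classical
  unfold leastCex
  rw [dif_pos H]
  exact ⟨Nat.find_spec H, fun z hz => not_not.1 (Nat.find_min H hz)⟩

theorem arithP_snoc {n : ℕ} (φ : arithLang.BoundedFormula Empty (n + 1)) (g : Fin n → ArF)
    {α : Type} [Primcodable α] {u : α → List Bool} {w : α → ℕ} (hu : ArithF u) (hw : ArithF w) :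
    ArithP (fun a => φ.Realize default
      (Fin.snoc (fun i => (g i).1 (u a)) (w a) : Fin (n + 1) → ℕ)) := by
  have := ArithP.realize (α := α) φ (fun i _ => i.elim)
    (Fin.snoc (fun i a => (g i).1 (u a)) w : Fin (n + 1) → α → ℕ) (fun i => i.elim) (by
      intro i
      refine Fin.lastCases ?_ (fun i => ?_) i
      · rw [Fin.snoc_last]; exact hw
      · rw [Fin.snoc_castSucc]; exact ArithF.comp (g i).2 hu)
  refine ArithP.congr this (fun a => ?_)
  have e1 : (fun i : Empty => (i.elim : ℕ)) = default := by funext i; exact i.elim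
  have e2 : (fun i => (Fin.snoc (fun i a => (g i).1 (u a)) w : Fin (n + 1) → α → ℕ) i a) =
      (Fin.snoc (fun i => (g i).1 (u a)) (w a) : Fin (n + 1) → ℕ) := by
    funext i
    refine Fin.lastCases ?_ (fun i => ?_) i
    · simp
    · simp
  rw [e2, e1]

theorem arithF_leastCex {n : ℕ} (φ : arithLang.BoundedFormula Empty (n + 1)) (g : Fin n → ArF) :
    ArithF (leastCex φ g) := by
  unfold ArithF
  have h1 : ArithP (fun p : List Bool × ℕ =>
      φ.Realize default (Fin.snoc (fun i => (g i).1 p.1) p.2 : Fin (n + 1) → ℕ)) :=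
    arithP_snoc φ g (ArithF.fst ArithF.id) (ArithF.snd ArithF.id)
  have h2 : ArithP (fun p : List Bool × ℕ => ∀ z : ℕ, z < p.2 →
      φ.Realize default (Fin.snoc (fun i => (g i).1 p.1) z : Fin (n + 1) → ℕ)) := by
    refine ArithP.all (P := fun (p : List Bool × ℕ) (z : ℕ) => z < p.2 →
      φ.Realize default (Fin.snoc (fun i => (g i).1 p.1) z : Fin (n + 1) → ℕ)) ?_
    refine ArithP.imp ?_ ?_
    · exact ArithP.comp₂ (P := fun a b : ℕ => a < b) (ArithP.of_primrec Primrec.nat_lt)
        (ArithF.snd ArithF.id) (ArithF.snd (ArithF.fst ArithF.id))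
    · exact arithP_snoc φ g (ArithF.fst (ArithF.fst ArithF.id)) (ArithF.snd ArithF.id)
  have h3 : ArithP (fun p : List Bool × ℕ => ∀ z : ℕ,
      φ.Realize default (Fin.snoc (fun i => (g i).1 p.1) z : Fin (n + 1) → ℕ)) := by
    refine ArithP.all (P := fun (p : List Bool × ℕ) (z : ℕ) =>
      φ.Realize default (Fin.snoc (fun i => (g i).1 p.1) z : Fin (n + 1) → ℕ)) ?_
    exact arithP_snoc φ g (ArithF.fst (ArithF.fst ArithF.id)) (ArithF.snd ArithF.id)
  have h4 : ArithP (fun p : List Bool × ℕ => p.2 = 0) :=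
    ArithP.eq (ArithF.snd ArithF.id) (ArithF.const 0)
  refine ArithP.congr ((h1.not.and h2).or (h3.and h4)) ?_
  rintro ⟨x, y⟩
  classical
  by_cases H : ∃ y : ℕ, ¬ φ.Realize default (Fin.snoc (fun i => (g i).1 x) y : Fin (n + 1) → ℕ)
  · have hs := leastCex_spec φ g x H
    constructor
    · intro e
      have e : leastCex φ g x = y := e
      rw [e] at hs
      exact Or.inl hs
    · rintro (⟨ha, hb⟩ | ⟨ha, -⟩)
      · show leastCex φ g x = y
        rcases lt_trichotomy (leastCex φ g x) y with hlt | heq | hgt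
        · exact absurd (hb _ hlt) hs.1
        · exact heq
        · exact absurd (hs.2 _ hgt) ha
      · obtain ⟨y', hy'⟩ := H
        exact absurd (ha y') hy'
  · have hz : leastCex φ g x = 0 := by unfold leastCex; rw [dif_neg H]
    push Not at H
    constructor
    · intro e
      have e : leastCex φ g x = y := e
      exact Or.inr ⟨H, by rw [← e, hz]⟩
    · rintro (⟨ha, -⟩ | ⟨-, hb⟩)
      · exact absurd (H y) ha
      · show leastCex φ g x = y
        rw [hz]; exact hb.symm

theorem IsUP.los_snoc (h : IsUP U M mk) {n : ℕ} (φ : arithLang.BoundedFormula Empty (n + 1))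
    (g : Fin n → ArF) (f : ArF) :
    φ.Realize default (Fin.snoc (fun i => mk (g i)) (mk f) : Fin (n + 1) → M) ↔
      ∀ᶠ x in (U : Filter (List Bool)),
        φ.Realize default (Fin.snoc (fun i => (g i).1 x) (f.1 x) : Fin (n + 1) → ℕ) := by
  have := h.los φ (fun i => i.elim) (Fin.snoc g f : Fin (n + 1) → ArF)
  have e1 : (fun i => mk ((Fin.snoc g f : Fin (n + 1) → ArF) i)) =
      (Fin.snoc (fun i => mk (g i)) (mk f) : Fin (n + 1) → M) := by
    funext i
    refine Fin.lastCases ?_ (fun i => ?_) i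
    · simp
    · simp
  have e2 : ∀ x : List Bool, (fun i => ((Fin.snoc g f : Fin (n + 1) → ArF) i).1 x) =
      (Fin.snoc (fun i => (g i).1 x) (f.1 x) : Fin (n + 1) → ℕ) := by
    intro x
    funext i
    refine Fin.lastCases ?_ (fun i => ?_) i
    · simp
    · simp
  rw [e1] at this
  have e3 : (fun i : Empty => mk (i.elim : ArF)) = (default : Empty → M) := by
    funext i; exact i.elim
  rw [e3] at this
  refine this.trans (eventually_congr (Eventually.of_forall fun x => ?_))
  rw [e2 x]
  have e4 : (fun i : Empty => (i.elim : ArF).1 x) = (default : Empty → ℕ) := by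
    funext i; exact i.elim
  rw [e4]

theorem IsUP.peano (h : IsUP U M mk) : PeanoModel M := by
  constructor
  · intro x hx
    obtain ⟨f, rfl⟩ := h.surj x
    rw [h.mk_succ, h.mk_zero, h.mk_eq] at hx
    obtain ⟨y, hy⟩ := hx.exists
    exact absurd hy (Nat.succ_ne_zero _)
  · intro x y hxy
    obtain ⟨f, rfl⟩ := h.surj x
    obtain ⟨g, rfl⟩ := h.surj y
    rw [h.mk_succ, h.mk_succ, h.mk_eq] at hxy
    rw [h.mk_eq]
    exact hxy.mono fun x hx => Nat.succ_injective hx
  · intro x
    obtain ⟨f, rfl⟩ := h.surj x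
    rw [h.mk_zero, h.mk_add, h.mk_eq]
    exact Eventually.of_forall fun x => Nat.add_zero _
  · intro x y
    obtain ⟨f, rfl⟩ := h.surj x
    obtain ⟨g, rfl⟩ := h.surj y
    rw [h.mk_succ, h.mk_add, h.mk_add, h.mk_succ, h.mk_eq]
    exact Eventually.of_forall fun x => (Nat.add_assoc _ _ _).symm
  · intro x
    obtain ⟨f, rfl⟩ := h.surj x
    rw [h.mk_zero, h.mk_mul, h.mk_eq]
    exact Eventually.of_forall fun x => Nat.mul_zero _
  · intro x y
    obtain ⟨f, rfl⟩ := h.surj x
    obtain ⟨g, rfl⟩ := h.surj y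
    rw [h.mk_succ, h.mk_mul, h.mk_mul, h.mk_add, h.mk_eq]
    exact Eventually.of_forall fun x => Nat.mul_succ _ _
  · intro n φ v h0 hS a
    by_contra ha
    obtain ⟨f, rfl⟩ := h.surj a
    choose g hg using fun i => h.surj (v i)
    have hv : v = fun i => mk (g i) := by funext i; exact (hg i).symm
    subst hv
    rw [h.los_snoc] at ha
    rw [h.mk_zero, h.los_snoc] at h0
    have ha' : ∀ᶠ x in (U : Filter (List Bool)),
        ¬ φ.Realize default (Fin.snoc (fun i => (g i).1 x) (f.1 x) : Fin (n + 1) → ℕ) :=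
      Ultrafilter.eventually_not.2 ha
    let e : ArF := ⟨leastCex φ g, arithF_leastCex φ g⟩
    let e' : ArF := ⟨fun x => leastCex φ g x - 1, arithF_pred (arithF_leastCex φ g)⟩
    have h1 : ∀ᶠ x in (U : Filter (List Bool)), 0 < e.1 x := by
      filter_upwards [ha', h0] with x hx hx0
      have hs := leastCex_spec φ g x ⟨_, hx⟩
      rcases Nat.eq_zero_or_pos (leastCex φ g x) with hz | hz
      · rw [hz] at hs
        exact absurd hx0 hs.1
      · exact hz
    have h2 : φ.Realize default (Fin.snoc (fun i => mk (g i)) (mk e') : Fin (n + 1) → M) := by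
      rw [h.los_snoc]
      filter_upwards [ha', h1] with x hx hx1
      exact (leastCex_spec φ g x ⟨_, hx⟩).2 _ (Nat.sub_lt hx1 Nat.one_pos)
    have h3 := hS _ h2
    have h4 : pSucc (mk e') = mk e := by
      rw [h.succ_iff]
      filter_upwards [h1] with x hx
      exact Nat.succ_pred_eq_of_pos hx
    rw [h4, h.los_snoc] at h3
    obtain ⟨x, hx, hx'⟩ := (h3.and ha').exists
    exact (leastCex_spec φ g x ⟨_, hx'⟩).1 hx

end Model

end Pool.Agent.Helper69.Enayat
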