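import Pool.Agent.Helper29.Enayat.Bas

/-!
# Enayat models: the standard cut
-/

set_option autoImplicit false

namespace Pool.Agent.Helper69.Enayat

open FirstOrder FirstOrder.Language Pool.Agent.Helper30.SatB Filter

section Model

variable {U : Ultrafilter (List Bool)} {M : Type} [arithLang.Structure M] {mk : ArF → M}

theorem Good.len (hU : Good U) (N : ℕ) : ∀ᶠ x in (U : Filter (List Bool)), N ≤ x.length := by
  obtain ⟨Y, -, hY⟩ := hU.branch
  filter_upwards [hY N] with x hx
  have := congrArg List.length hx
  simp only [List.length_take, List.length_map, List.length_range] at this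
  omega

/-- the standard numerals form an elementary substructure -/
noncomputable def IsUP.emb (h : IsUP U M mk) : ℕ ↪ₑ[arithLang] M where
  toFun := pNum M
  map_formula' := by
    intro n φ x
    have := h.los (ι := Fin n) (n := 0) φ (fun i => ArF.c (x i)) Fin.elim0
    have e1 : (fun i => mk (ArF.c (x i))) = pNum M ∘ x := by
      funext i
      exact h.mk_c (x i)
    rw [e1] at this
    unfold Formula.Realize
    have e2 : (fun i : Fin 0 => mk (Fin.elim0 i : ArF)) = (default : Fin 0 → M) :=
      Subsingleton.elim _ _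
    rw [e2] at this
    refine this.trans ?_
    have e3 : ∀ z : List Bool, (fun i : Fin 0 => (Fin.elim0 i : ArF).1 z) = (default : Fin 0 → ℕ) :=
      fun z => Subsingleton.elim _ _
    simp only [e3]
    show (∀ᶠ _x in (U : Filter (List Bool)), BoundedFormula.Realize φ x default) ↔ _
    rw [eventually_const]
    exact iff_of_eq (congrArg _ (Subsingleton.elim _ _))

theorem IsUP.emb_apply (h : IsUP U M mk) (n : ℕ) : h.emb n = pNum M n := rfl

theorem emb_pNum {N N' : Type} [arithLang.Structure N] [arithLang.Structure N']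
    (e : N ↪ₑ[arithLang] N') : ∀ n : ℕ, e (pNum N n) = pNum N' n
  | 0 => by
    show e (pZero N) = pZero N'
    unfold pZero
    rw [e.map_fun]
    congr 1
    exact Subsingleton.elim _ _
  | n + 1 => by
    show e (pSucc (pNum N n)) = pSucc (pNum N' n)
    rw [← emb_pNum e n]
    unfold pSucc
    rw [e.map_fun]
    congr 1
    funext i
    fin_cases i
    rfl

/-- the length function -/
def ArF.len : ArF := ⟨List.length, ArithF.of_primrec Primrec.list_length⟩

theorem IsUP.len_ne (h : IsUP U M mk) (hU : Good U) (n : ℕ) : mk ArF.len ≠ pNum M n := by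
  intro hn
  rw [h.pNum_eq] at hn
  obtain ⟨x, hx, hx'⟩ := (hn.and (hU.len (n + 1))).exists
  have hx : x.length = n := hx
  omega

theorem IsUP.not_prime (h : IsUP U M mk) (hU : Good U) : ¬ IsPrime M := by
  intro hp
  obtain ⟨e⟩ := hp ℕ h.emb.elementarilyEquivalent.symm
  refine h.len_ne hU (e (mk ArF.len)) (e.injective ?_)
  rw [emb_pNum, nat_pNum]

/-- a function bounded by a number is almost constant -/
theorem ultra_bdd (U : Ultrafilter (List Bool)) (f : List Bool → ℕ) : ∀ n : ℕ,
    (∀ᶠ x in (U : Filter (List Bool)), f x < n) →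
      ∃ m, ∀ᶠ x in (U : Filter (List Bool)), f x = m
  | 0, h => by
    obtain ⟨x, hx⟩ := h.exists
    exact absurd hx (Nat.not_lt_zero _)
  | n + 1, h => by
    have h' : ∀ᶠ x in (U : Filter (List Bool)), f x < n ∨ f x = n := by
      filter_upwards [h] with x hx
      omega
    rcases Ultrafilter.eventually_or.1 h' with h1 | h1
    · exact ultra_bdd U f n h1
    · exact ⟨n, h1⟩

/-- the standard cut -/
noncomputable def IsUP.std (h : IsUP U M mk) : arithLang.ElementarySubstructure M :=
  Substructure.toElementarySubstructure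
    { carrier := {x | ∃ n, x = pNum M n}
      fun_mem := by
        intro n f x hx
        choose k hk using hx
        have : x = h.emb ∘ k := by
          funext i
          exact hk i
        refine ⟨Structure.funMap f k, ?_⟩
        rw [this, ← h.emb.map_fun, h.emb_apply] }
    (by
      intro n φ x a hφ
      have hx : ∀ i, ∃ m, (x i : M) = pNum M m := fun i => (x i).2
      choose k hk using hx
      obtain ⟨f, rfl⟩ := h.surj a
      have e1 : ((↑) ∘ x : Fin n → M) = fun i => mk (ArF.c (k i)) := by
        funext i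
        rw [h.mk_c]
        exact hk i
      rw [e1] at hφ
      have hφ' := (h.los_snoc φ (fun i => ArF.c (k i)) f).1 hφ
      obtain ⟨z, hz⟩ := hφ'.exists
      refine ⟨⟨pNum M (f.1 z), f.1 z, rfl⟩, ?_⟩
      rw [e1]
      show φ.Realize default (Fin.snoc (fun i => mk (ArF.c (k i))) (pNum M (f.1 z)) : Fin (n + 1) → M)
      rw [← h.mk_c]
      exact (h.los_snoc φ (fun i => ArF.c (k i)) (ArF.c (f.1 z))).2 (Eventually.of_forall fun _ => hz))

theorem IsUP.mem_std (h : IsUP U M mk) (x : M) : x ∈ h.std ↔ ∃ n, x = pNum M n := Iff.rfl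

/-- module CUT: `IsUP.exists_cut` from one direction of `IsUP.def_iff`
(use: `h.exists_cut_of hU (fun D => (h.def_iff D).2)`) -/
theorem IsUP.exists_cut_of (h : IsUP U M mk) (hU : Good U)
    (hdef : ∀ D : Set M, (∃ R : List Bool → ℕ → Prop,
      ArithP (fun p : List Bool × ℕ => R p.1 p.2) ∧
        ∀ f : ArF, mk f ∈ D ↔ ∀ᶠ x in (U : Filter (List Bool)), R x (f.1 x)) → Def M D) :
    ∃ K : arithLang.ElementarySubstructure M, (∀ x, x ∈ K ↔ ∃ n, x = pNum M n) ∧
      IsCut M K ∧ IsProper M K ∧ ¬ IsConservative M K := by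
  refine ⟨h.std, h.mem_std, ?_, ?_, ?_⟩
  · rintro x ⟨n, hx⟩ y hy
    obtain ⟨f, rfl⟩ := h.surj y
    rw [hx, ← h.mk_c, h.lt_iff] at hy
    obtain ⟨m, hm⟩ := ultra_bdd U f.1 n hy
    exact ⟨m, (h.pNum_eq m f).2 hm⟩
  · exact ⟨mk ArF.len, fun ⟨n, hn⟩ => h.len_ne hU n hn⟩
  · intro hcons
    obtain ⟨Y, hY, hbr⟩ := hU.branch
    apply hY
    let D : Set M := {a | ∃ f, mk f = a ∧ ∀ᶠ x in (U : Filter (List Bool)), x[f.1 x]? = some true}
    have hmem : ∀ f : ArF, mk f ∈ D ↔ ∀ᶠ x in (U : Filter (List Bool)), x[f.1 x]? = some true := by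
      intro f
      constructor
      · rintro ⟨g, hg, hg'⟩
        rw [h.mk_eq] at hg
        filter_upwards [hg, hg'] with x h1 h2
        rw [← h1]; exact h2
      · intro hf
        exact ⟨f, rfl, hf⟩
    have hD : Def M D := by
      apply hdef
      refine ⟨fun x n => x[n]? = some true, ?_, hmem⟩
      exact ArithP.eq (ArithF.of_primrec (Primrec.list_getElem?.comp Primrec.fst Primrec.snd))
        (ArithF.const (some true))
    have hK := hcons D hD
    unfold Def Set.Definable₁ at hK
    rw [Set.definable_iff_exists_formula_sum] at hK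
    obtain ⟨φ, hφ⟩ := hK
    -- the numeral of an element of the cut
    have hnum : ∀ a : h.std, ∃ m, (a : M) = pNum M m := fun a => a.2
    choose k hk using hnum
    have key : ∀ n : ℕ, Y n = true ↔
        φ.Realize (Sum.elim (fun a => k a.1) (fun _ : Fin 1 => n)) := by
      intro n
      let a : h.std := ⟨pNum M n, n, rfl⟩
      have h1 : (fun _ : Fin 1 => a) ∈ {x : Fin 1 → h.std | x 0 ∈ {k : h.std | (k : M) ∈ D}} ↔
          φ.Realize (Sum.elim (fun b : (Set.univ : Set h.std) => (b : h.std)) (fun _ => a)) := by
        rw [hφ]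
        exact Iff.rfl
      have h2 : (fun _ : Fin 1 => a) ∈ {x : Fin 1 → h.std | x 0 ∈ {k : h.std | (k : M) ∈ D}} ↔
          pNum M n ∈ D := Iff.rfl
      have h3 : pNum M n ∈ D ↔ Y n = true := by
        rw [← h.mk_c, hmem]
        constructor
        · intro hx
          obtain ⟨x, hx1, hx2⟩ := (hx.and (hbr (n + 1))).exists
          have hx1 : x[n]? = some true := hx1
          have e : (x.take (n + 1))[n]? = some true := by
            rw [List.getElem?_take_of_lt (Nat.lt_succ_self n)]; exact hx1
          rw [hx2] at e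
          simpa using e
        · intro hYn
          filter_upwards [hbr (n + 1)] with x hx
          show x[n]? = some true
          rw [← List.getElem?_take_of_lt (Nat.lt_succ_self n), hx]
          simp [hYn]
      rw [← h3, ← h2, h1]
      rw [← h.std.subtype.map_formula]
      have e : (h.std.subtype ∘ Sum.elim (fun b : (Set.univ : Set h.std) => (b : h.std))
          (fun _ : Fin 1 => a)) = h.emb ∘ (Sum.elim (fun a => k a.1) (fun _ : Fin 1 => n)) := by
        funext i
        rcases i with i | i
        · exact hk i.1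
        · rfl
      rw [e, h.emb.map_formula]
    refine ArithP.congr (ArithP.realize (α := ℕ) (n := 0) φ
      (Sum.elim (fun a _ => k a.1) (fun _ n => n)) Fin.elim0 ?_ (fun i => i.elim0)) ?_
    · intro i
      rcases i with i | i
      · exact ArithF.const _
      · exact ArithF.id
    · intro n
      rw [key n]
      unfold Formula.Realize
      have e : (fun i => (Sum.elim (fun a _ => k a.1) (fun _ n => n) :
          ((Set.univ : Set h.std) ⊕ Fin 1) → ℕ → ℕ) i n) =
          Sum.elim (fun a => k a.1) (fun _ : Fin 1 => n) := by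
        funext i
        rcases i with i | i <;> rfl
      rw [e]
      have e2 : (fun i : Fin 0 => (Fin.elim0 i : ℕ → ℕ) n) = default := Subsingleton.elim _ _
      rw [e2]
      exact iff_of_eq (congrArg _ (Subsingleton.elim _ _))

end Model

end Pool.Agent.Helper69.Enayat
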