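import Pool.Agent.Helper69.Enayat.Spec
import Pool.Agent.Helper69.Enayat.AR

/-!
# Enayat models: the generic ultrafilter
-/

set_option autoImplicit false

namespace Pool.Agent.Helper69.Enayat

open FirstOrder FirstOrder.Language Pool.Agent.Helper30.SatB Filter

/-- the trivial condition -/
def condTop : Cond where
  A := fun _ => True
  T := fun _ => True
  arA := ArithP.const True
  arT := ArithP.const True
  ne := ⟨[], trivial⟩
  split := fun t _ => ⟨t ++ [true], t ++ [false], trivial, trivial, List.prefix_append _ _,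
    List.prefix_append _ _, by
      constructor <;> intro h
      · have := h.eq_of_length (by simp)
        simp at this
      · have := h.eq_of_length (by simp)
        simp at this⟩
  dense := fun t _ => ⟨t, trivial, List.prefix_refl _⟩

theorem Cond.le_refl (C : Cond) : C.Le C := ⟨fun _ h => h, fun _ h => h⟩

theorem Cond.le_trans {E D C : Cond} (h : E.Le D) (h' : D.Le C) : E.Le C :=
  ⟨fun x hx => h'.1 x (h.1 x hx), fun x hx => h'.2 x (h.2 x hx)⟩

/-- a generic sequence for countably many dense sets -/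
theorem gen_seq {ι : Type} [Nonempty ι] [Countable ι] (W : ι → Cond → Prop)
    (hW : ∀ i C, ∃ D : Cond, D.Le C ∧ W i D) :
    ∃ C : ℕ → Cond, (∀ m n, m ≤ n → (C n).Le (C m)) ∧ ∀ i, ∃ n, W i (C n) := by
  obtain ⟨e, he⟩ := exists_surjective_nat ι
  choose D hD using hW
  let C : ℕ → Cond := fun n => Nat.rec condTop (fun k c => D (e k) c) n
  have hC : ∀ n, C (n + 1) = D (e n) (C n) := fun n => rfl
  refine ⟨C, ?_, ?_⟩
  · intro m n hmn
    induction n, hmn using Nat.le_induction with
    | base => exact Cond.le_refl _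
    | succ n hmn ih =>
      rw [hC]
      exact Cond.le_trans (hD (e n) (C n)).1 ih
  · intro i
    obtain ⟨k, rfl⟩ := he i
    exact ⟨k + 1, by rw [hC]; exact (hD (e k) (C k)).2⟩

/-- the ultrafilter of a decreasing sequence of conditions -/
theorem gen_ultra (C : ℕ → Cond) (hC : ∀ m n, m ≤ n → (C n).Le (C m)) :
    ∃ U : Ultrafilter (List Bool), ∀ n, ∀ᶠ x in (U : Filter (List Bool)), (C n).A x := by
  have hne : NeBot (⨅ n, 𝓟 {x | (C n).A x}) := by
    refine iInf_neBot_of_directed ?_ ?_
    · intro m n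
      refine ⟨max m n, ?_, ?_⟩
      · exact principal_mono.2 (fun x hx => (hC m _ (le_max_left _ _)).1 x hx)
      · exact principal_mono.2 (fun x hx => (hC n _ (le_max_right _ _)).1 x hx)
    · intro n
      rw [principal_neBot_iff]
      obtain ⟨t, ht⟩ := (C n).ne
      obtain ⟨x, hx, -⟩ := (C n).dense t ht
      exact ⟨x, hx⟩
  refine ⟨Ultrafilter.of (⨅ n, 𝓟 {x | (C n).A x}), fun n => ?_⟩
  refine Ultrafilter.of_le (⨅ n, 𝓟 {x | (C n).A x}) ?_
  exact mem_iInf_of_mem n (mem_principal_self _)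

/-- the branch of an ultrafilter concentrating on long stems -/
theorem gen_branch (U : Ultrafilter (List Bool))
    (h : ∀ m : ℕ, ∃ t : List Bool, m ≤ t.length ∧ ∀ᶠ x in (U : Filter (List Bool)), t <+: x) :
    ∃ Y : ℕ → Bool, ∀ m, ∀ᶠ x in (U : Filter (List Bool)), x.take m = (List.range m).map Y := by
  choose t ht hU using h
  refine ⟨fun i => (t (i + 1)).getD i false, fun m => ?_⟩
  have hall : ∀ᶠ x in (U : Filter (List Bool)), ∀ i ∈ Finset.range (m + 1), t i <+: x := by
    rw [Filter.eventually_all_finset]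
    exact fun i _ => hU i
  filter_upwards [hall] with x hx
  have hm : m ≤ x.length :=
    le_trans (ht m) (hx m (Finset.mem_range.2 (Nat.lt_succ_self m))).length_le
  refine List.ext_getElem (by simp [hm]) ?_
  intro i h1 h2
  have hi : i < m := by simpa using h2
  have hp := hx (i + 1) (Finset.mem_range.2 (by omega))
  have hit : i < (t (i + 1)).length := lt_of_lt_of_le (Nat.lt_succ_self i) (ht (i + 1))
  rw [List.getElem_take, List.getElem_map, List.getElem_range]
  rw [List.getD_eq_getElem _ _ hit]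
  exact (hp.getElem hit).symm

/-- the countable set of requirements -/
abbrev Req : Type := {f : List Bool → ℕ // ArithF f} ⊕ ({g : List Bool → List Bool // ArithF g} ⊕
  ({P : ℕ → Prop // ArithP P} × ℕ))

open Classical in
/-- the conditions deciding a requirement -/
def Req.Meets : Req → Cond → Prop
  | Sum.inl f, D => (∃ n, ∀ x, D.A x → f.1 x = n) ∨
      ∀ x y, D.A x → D.A y → f.1 x = f.1 y → x = y
  | Sum.inr (Sum.inl g), D => (∃ n, ∀ x, D.A x → (g.1 x).length = n) ∨
      (∃ Z : ℕ → Bool, ArithP (fun n => Z n = true) ∧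
        ∀ m, ∃ N, ∀ x, D.A x → N ≤ x.length → (g.1 x).take m = (List.range m).map Z) ∨
      (∃ B : List Bool → Prop, ArithP B ∧
        (∀ m, ∃ N, ∀ x, D.A x → N ≤ x.length → ¬ B ((g.1 x).take m)) ∧
        ∀ x, D.A x → ∃ k ≤ (g.1 x).length, B ((g.1 x).take k))
  | Sum.inr (Sum.inr P), D => ∃ t : List Bool, P.2 ≤ t.length ∧ (∀ x, D.A x → t <+: x) ∧
      ∃ i < t.length, t[i]? ≠ some (decide (P.1.1 i))

/-- the statement of `dense_inj` -/
def DenseInj : Prop := ∀ (C : Cond) {f : List Bool → ℕ}, ArithF f →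
    ∃ D : Cond, D.Le C ∧ ((∃ n, ∀ x, D.A x → f x = n) ∨
      ∀ x y, D.A x → D.A y → f x = f y → x = y)

/-- the statement of `dense_real` -/
def DenseReal : Prop := ∀ (C : Cond) {g : List Bool → List Bool}, ArithF g →
    ∃ D : Cond, D.Le C ∧ ((∃ n, ∀ x, D.A x → (g x).length = n) ∨
      (∃ Z : ℕ → Bool, ArithP (fun n => Z n = true) ∧
        ∀ m, ∃ N, ∀ x, D.A x → N ≤ x.length → (g x).take m = (List.range m).map Z) ∨
      (∃ B : List Bool → Prop, ArithP B ∧
        (∀ m, ∃ N, ∀ x, D.A x → N ≤ x.length → ¬ B ((g x).take m)) ∧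
        ∀ x, D.A x → ∃ k ≤ (g x).length, B ((g x).take k)))

/-- the statement of `dense_stem` -/
def DenseStem : Prop := ∀ (C : Cond) (Z : ℕ → Bool) (n : ℕ),
    ∃ D : Cond, D.Le C ∧ ∃ t : List Bool, n ≤ t.length ∧ (∀ x, D.A x → t <+: x) ∧
      (∀ x, D.T x → t <+: x) ∧ ∃ i < t.length, t[i]? ≠ some (Z i)

theorem Req.dense (dense_inj : DenseInj) (dense_real : DenseReal) (dense_stem : DenseStem)
    (r : Req) (C : Cond) : ∃ D : Cond, D.Le C ∧ r.Meets D := by
  classical
  rcases r with f | g | P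
  · exact dense_inj C f.2
  · exact dense_real C g.2
  · obtain ⟨D, hD, t, h1, h2, -, h4⟩ := dense_stem C (fun i => decide (P.1.1 i)) P.2
    exact ⟨D, hD, t, h1, h2, by convert h4⟩

/-- module GEN: `exists_good` from the three density lemmas
(use: `exists_good_of (fun C _ hf => dense_inj C hf) (fun C _ hg => dense_real C hg) dense_stem`) -/
theorem exists_good_of (dense_inj : DenseInj) (dense_real : DenseReal)
    (dense_stem : DenseStem) : ∃ U : Ultrafilter (List Bool), Good U := by
  classical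
  have : Countable {f : List Bool → ℕ // ArithF f} := countable_arithF
  have : Countable {g : List Bool → List Bool // ArithF g} := countable_arithF
  have : Countable {P : ℕ → Prop // ArithP P} := countable_arithP
  have : Nonempty Req := ⟨Sum.inl ⟨fun _ => 0, ArithF.const 0⟩⟩
  obtain ⟨C, hC, hG⟩ := gen_seq (ι := Req) Req.Meets
    (Req.dense dense_inj dense_real dense_stem)
  obtain ⟨U, hU⟩ := gen_ultra C hC
  have hstem : ∀ m : ℕ, ∃ t : List Bool, m ≤ t.length ∧
      ∀ᶠ x in (U : Filter (List Bool)), t <+: x := by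
    intro m
    obtain ⟨n, t, h1, h2, -⟩ := hG (Sum.inr (Sum.inr (⟨fun _ => True, ArithP.const True⟩, m)))
    exact ⟨t, h1, (hU n).mono h2⟩
  obtain ⟨Y, hY⟩ := gen_branch U hstem
  have hlen : ∀ N : ℕ, ∀ᶠ x in (U : Filter (List Bool)), N ≤ x.length := by
    intro N
    filter_upwards [hY N] with x hx
    have := congrArg List.length hx
    simp only [List.length_take, List.length_map, List.length_range] at this
    omega
  refine ⟨U, ?_, ⟨Y, ?_, hY⟩, ?_⟩
  · intro f hf
    obtain ⟨n, hn⟩ := hG (Sum.inl ⟨f, hf⟩)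
    rcases hn with ⟨k, hk⟩ | hinj
    · exact Or.inl ⟨k, (hU n).mono hk⟩
    · exact Or.inr ⟨(C n).A, (C n).arA, hU n, hinj⟩
  · intro hP
    obtain ⟨n, t, -, h2, i, hi, hne⟩ := hG (Sum.inr (Sum.inr (⟨_, hP⟩, 0)))
    obtain ⟨x, hx1, hx2⟩ := ((hU n).and (hY t.length)).exists
    obtain ⟨s, rfl⟩ := h2 x hx1
    rw [List.take_left] at hx2
    apply hne
    rw [hx2]
    simp [hi]
  · intro g hg hglen
    obtain ⟨n, hn⟩ := hG (Sum.inr (Sum.inl ⟨g, hg⟩))
    rcases hn with ⟨k, hk⟩ | ⟨Z, hZ, h⟩ | ⟨B, hB, h, h'⟩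
    · exfalso
      obtain ⟨x, hx1, hx2⟩ := ((hU n).and (hglen (k + 1))).exists
      have := hk x hx1
      simp only at this
      omega
    · refine Or.inl ⟨Z, hZ, fun m => ?_⟩
      obtain ⟨N, hN⟩ := h m
      filter_upwards [hU n, hlen N] with x hx1 hx2
      exact hN x hx1 hx2
    · refine Or.inr ⟨B, hB, fun m => ?_, (hU n).mono h'⟩
      obtain ⟨N, hN⟩ := h m
      filter_upwards [hU n, hlen N] with x hx1 hx2
      exact hN x hx1 hx2

end Pool.Agent.Helper69.Enayat
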